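import Mathlib
import Pool.Agent.Q263.ST.Cert

/-!
# MP_6194d2_nt, Q1: the stable 2-adic class count is not monotone

`μ_70` and `μ_71` exist, `μ_70 = 34` and `μ_71 = 32`.
-/

namespace Pool.Agent.Results.MP_6194d2_nt.NotMonotone

open Finset

/-- The set `[n]_t` of all `j ≥ max n t` with `j ≡ n (mod t)`. -/
def cls (n t : ℕ) : Set ℕ := {j | max n t ≤ j ∧ j ≡ n [MOD t]}

/-- The function `j ↦ ν₂(S(j,k))` is constant on `s`: its image of `s` is a single point. -/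
def ConstOn (k : ℕ) (s : Set ℕ) : Prop :=
  ∃ c : ℕ, (fun j => padicValNat 2 (Nat.stirlingSecond j k)) '' s = {c}

/-- The set `N_{k,m}`. -/
def NN (k m : ℕ) : Set ℕ := {n | k ≤ n ∧ n < k + 2 ^ m ∧ ¬ ConstOn k (cls n (2 ^ m))}

/-- `μ_k` exists and is equal to `a`: the integer sequence `#N_{k,m}` is eventually equal to
`a`. -/
def MuEq (k a : ℕ) : Prop := ∃ M : ℕ, ∀ m ≥ M, (NN k m).ncard = a

lemma not_constOn_iff {k m n : ℕ} (hk : k ≤ 2 ^ m) (hn : n < k + 2 ^ m) :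
    ¬ ConstOn k (cls n (2 ^ m)) ↔ Q263.ST.Bad k m n := by
  constructor
  · intro h
    by_contra hb
    apply h
    set j₀ := n + 2 ^ m with hj₀
    have hj : j₀ ∈ cls n (2 ^ m) := by
      refine ⟨by rw [max_le_iff]; omega, ?_⟩
      unfold Nat.ModEq
      rw [hj₀, Nat.add_mod_right]
    refine ⟨padicValNat 2 (Nat.stirlingSecond j₀ k), ?_⟩
    ext c
    rw [Set.mem_image, Set.mem_singleton_iff]
    constructor
    · rintro ⟨j, hjc, rfl⟩
      by_contra hne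
      exact hb ⟨j, j₀, (le_max_right _ _).trans hjc.1, (le_max_right _ _).trans hj.1, hjc.2, hj.2,
        hne⟩
    · rintro rfl
      exact ⟨j₀, hj, rfl⟩
  · rintro ⟨j₁, j₂, h1, h2, h3, h4, h5⟩ ⟨c, hc⟩
    have key : ∀ j, 2 ^ m ≤ j → j ≡ n [MOD 2 ^ m] → j ∈ cls n (2 ^ m) := by
      intro j hj hjn
      refine ⟨?_, hjn⟩
      rw [max_le_iff]
      refine ⟨?_, hj⟩
      by_contra hlt
      push Not at hlt
      obtain ⟨d, hd⟩ := (Nat.modEq_iff_dvd' hlt.le).mp hjn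
      have hd1 : 1 ≤ d := by
        by_contra h0
        have : d = 0 := by omega
        rw [this] at hd
        omega
      have : 2 ^ m * 1 ≤ 2 ^ m * d := Nat.mul_le_mul_left _ hd1
      omega
    apply h5
    have m1 : padicValNat 2 (Nat.stirlingSecond j₁ k) ∈ ({c} : Set ℕ) := by
      rw [← hc]; exact ⟨j₁, key j₁ h1 h3, rfl⟩
    have m2 : padicValNat 2 (Nat.stirlingSecond j₂ k) ∈ ({c} : Set ℕ) := by
      rw [← hc]; exact ⟨j₂, key j₂ h2 h4, rfl⟩
    rw [Set.mem_singleton_iff] at m1 m2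
    rw [m1, m2]

lemma ncard_eq {k m : ℕ} (hk : k ≤ 2 ^ m) : (NN k m).ncard = Q263.ST.cnt k m 0 0 := by
  classical
  have h1 : NN k m = ((Ico k (k + 2 ^ m)).filter (fun n => Q263.ST.Bad k m n) : Finset ℕ) := by
    ext n
    simp only [coe_filter, mem_Ico, NN, Set.mem_ofPred_eq]
    constructor
    · rintro ⟨a, b, c⟩
      exact ⟨⟨a, b⟩, (not_constOn_iff hk b).mp c⟩
    · rintro ⟨⟨a, b⟩, c⟩
      exact ⟨a, b, (not_constOn_iff hk b).mpr c⟩
  rw [h1, Set.ncard_coe_finset]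
  have hper : Function.Periodic (fun n => Q263.ST.Bad k m n) (2 ^ m) := by
    intro n
    simp only [Q263.ST.Bad, Nat.ModEq, Nat.add_mod_right]
  rw [Nat.filter_Ico_card_eq_of_periodic k (2 ^ m) _ hper, Nat.count_eq_card_filter_range]
  unfold Q263.ST.cnt
  congr 1
  ext x
  simp [Nat.modEq_one]

theorem mu70 : MuEq 70 34 := by
  refine ⟨100, fun m hm => ?_⟩
  have h := Q263.ST.big hm
  rw [ncard_eq (by omega), Q263.ST.cnt70 hm]

theorem mu71 : MuEq 71 32 := by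
  refine ⟨100, fun m hm => ?_⟩
  have h := Q263.ST.big hm
  rw [ncard_eq (by omega), Q263.ST.cnt71 hm]

/-- **Q1 is false**: `μ_70 = 34` and `μ_71 = 32` (both limits exist). -/
theorem result : (MuEq 70 34 ∧ MuEq 71 32) ∧
    ¬ ∀ k k' a a' : ℕ, 1 ≤ k → k < k' → MuEq k a → MuEq k' a' → a ≤ a' := by
  refine ⟨⟨mu70, mu71⟩, fun h => ?_⟩
  have := h 70 71 34 32 (by norm_num) (by norm_num) mu70 mu71
  omega

end Pool.Agent.Results.MP_6194d2_nt.NotMonotone
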